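import Pool.Agent.W622.BK.Stm

set_option autoImplicit false

universe u

namespace Pool.Agent.W828.BK

open Finset

lemma order_cons {k : Type u} [Field k] {N n : ℕ} (d : (Fin (n + 1) → Fin N) → k)
    (hs : ∀ (v : Fin (n + 1) → Fin N) (σ : Equiv.Perm (Fin (n + 1))),
      d (v ∘ σ) = ((Equiv.Perm.sign σ : ℤ) : k) * d v) (v : Fin (n + 1) → Fin N) (i : Fin (n + 1)) :
    d (Fin.cons (v i) (v ∘ i.succAbove) : Fin (n + 1) → Fin N) = (-1 : k) ^ (i : ℕ) * d v := by
  have h1 : (Fin.cons (v i) (v ∘ i.succAbove) : Fin (n + 1) → Fin N) = v ∘ i.cycleRange.symm := by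
    funext t
    refine Fin.cases ?_ (fun t => ?_) t
    · simp [Fin.cycleRange_symm_zero]
    · simp [Fin.cycleRange_symm_succ]
  rw [h1, hs]
  congr 1
  rw [Equiv.Perm.sign_symm, Fin.sign_cycleRange]
  simp

lemma step {k : Type u} [Field k] {N n : ℕ} (d : (Fin (n + 1) → Fin N) → k)
    (h0 : ∀ v, ¬ Function.Injective v → d v = 0)
    (hs : ∀ (v : Fin (n + 1) → Fin N) (σ : Equiv.Perm (Fin (n + 1))),
      d (v ∘ σ) = ((Equiv.Perm.sign σ : ℤ) : k) * d v)
    (g : Fin N → (Fin n → Fin N) → k) :
    ∑ I : Fin (n + 1) ↪o Fin N, ∑ i : Fin (n + 1),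
      (-1 : k) ^ (i : ℕ) * d I * g (I i) (fun t => I (i.succAbove t)) =
    ∑ J : Fin n ↪o Fin N, ∑ p : Fin N, d (Fin.cons p J : Fin (n + 1) → Fin N) * g p J := by
  classical
  rw [← Finset.sum_product', ← Finset.sum_product']
  have hR : ∑ x ∈ (univ : Finset (Fin n ↪o Fin N)) ×ˢ (univ : Finset (Fin N)),
      d (Fin.cons x.2 x.1 : Fin (n + 1) → Fin N) * g x.2 x.1 =
      ∑ x ∈ ((univ : Finset (Fin n ↪o Fin N)) ×ˢ (univ : Finset (Fin N))).filter
        (fun x => x.2 ∉ Set.range x.1),
      d (Fin.cons x.2 x.1 : Fin (n + 1) → Fin N) * g x.2 x.1 := by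
    symm
    refine Finset.sum_subset (Finset.filter_subset _ _) fun x _ hx => ?_
    have hx' : x.2 ∈ Set.range x.1 := by
      by_contra h
      exact hx (by simpa using h)
    rw [h0, zero_mul]
    intro hinj
    rw [Fin.cons_injective_iff] at hinj
    exact hinj.1 hx'
  rw [hR]
  refine Finset.sum_bij (fun x _ => ((Fin.succAboveOrderEmb x.2).trans x.1, x.1 x.2)) ?_ ?_ ?_ ?_
  · intro x _
    simp only [Finset.mem_filter, Finset.mem_product, Finset.mem_univ, true_and]
    rintro ⟨t, ht⟩
    exact Fin.succAbove_ne x.2 t (x.1.injective ht)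
  · intro x _ y _ hxy
    obtain ⟨I, i⟩ := x
    obtain ⟨I', i'⟩ := y
    simp only [Prod.mk.injEq] at hxy
    obtain ⟨h1, h2⟩ := hxy
    have hr : ∀ (I : Fin (n + 1) ↪o Fin N) (i : Fin (n + 1)), Set.range I =
        insert (I i) (Set.range ((Fin.succAboveOrderEmb i).trans I)) := by
      intro I i
      ext t
      constructor
      · rintro ⟨s, rfl⟩
        rcases eq_or_ne s i with rfl | h
        · exact Set.mem_insert _ _
        · obtain ⟨s', hs'⟩ := Fin.exists_succAbove_eq h
          refine Set.mem_insert_of_mem _ ⟨s', ?_⟩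
          rw [← hs']
          rfl
      · rintro (rfl | ⟨s, rfl⟩)
        · exact ⟨i, rfl⟩
        · exact ⟨i.succAbove s, rfl⟩
    have h3 : Set.range I = Set.range I' := by
      rw [hr I i, hr I' i', h1, h2]
    have h4 : (I : Fin (n + 1) → Fin N) = I' := (StrictMono.range_inj I.strictMono I'.strictMono).1 h3
    have h5 : I = I' := DFunLike.coe_injective h4
    subst h5
    rw [I.injective h2]
  · rintro ⟨J, p⟩ hx
    have hp : p ∉ Set.range J := by simpa using hx
    have hcard : (insert p (univ.image J)).card = n + 1 := by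
      rw [Finset.card_insert_of_notMem, Finset.card_image_of_injective _ J.injective, card_univ,
        Fintype.card_fin]
      intro h
      rw [Finset.mem_image] at h
      obtain ⟨t, _, ht⟩ := h
      exact hp ⟨t, ht⟩
    let I : Fin (n + 1) ↪o Fin N := (insert p (univ.image J)).orderEmbOfFin hcard
    have hI : Set.range I = ((insert p (univ.image J) : Finset (Fin N)) : Set (Fin N)) :=
      Finset.range_orderEmbOfFin _ _
    have hpI : p ∈ Set.range I := by
      rw [hI]
      simp
    obtain ⟨i, hi⟩ := hpI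
    refine ⟨(I, i), by simp, ?_⟩
    have h1 : Set.range ((Fin.succAboveOrderEmb i).trans I) = Set.range J := by
      ext t
      constructor
      · rintro ⟨s, rfl⟩
        have h2 : I (i.succAbove s) ∈ Set.range I := ⟨_, rfl⟩
        rw [hI] at h2
        simp only [Finset.coe_insert, Finset.coe_image, Finset.coe_univ, Set.image_univ] at h2
        rcases h2 with h2 | h2
        · exfalso
          rw [← hi] at h2
          exact Fin.succAbove_ne i s (I.injective h2)
        · exact h2
      · rintro ⟨s, rfl⟩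
        have h2 : J s ∈ Set.range I := by
          rw [hI]
          simp
        obtain ⟨s', hs'⟩ := h2
        have h3 : s' ≠ i := by
          rintro rfl
          exact hp ⟨s, by rw [← hs', hi]⟩
        obtain ⟨s'', hs''⟩ := Fin.exists_succAbove_eq h3
        refine ⟨s'', ?_⟩
        rw [← hs', ← hs'']
        rfl
    have h2 : ((Fin.succAboveOrderEmb i).trans I : Fin n → Fin N) = J :=
      (StrictMono.range_inj (I.strictMono.comp (Fin.strictMono_succAbove i)) J.strictMono).1 h1
    exact Prod.ext (DFunLike.coe_injective h2) hi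
  · intro x _
    have h1 := order_cons d hs x.1 x.2
    rw [← h1]
    rfl

theorem t_NZA : Pool.Agent.W622.BK.S_NZA.{u} := by
  intro k _ N m c h h0 hs _ _
  obtain ⟨G, hG⟩ : ∃ G : Fin N → (Fin (m + 1) → Fin N) → k, ∀ p K, G p K = ∑ j : Fin (m + 1),
      if p < K j then - ((-1 : k) ^ (j : ℕ) * h p (K j) (fun t => K (j.succAbove t))) else 0 :=
    ⟨_, fun _ _ => rfl⟩
  have e1 : ∀ I : Fin (m + 2) ↪o Fin N, ∑ i : Fin (m + 2), ∑ j : Fin (m + 1),
      (if (i : ℕ) ≤ (j : ℕ) then
        c I * ((-1 : k) ^ ((i : ℕ) + (j : ℕ) + 1) *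
          h (I i) (I j.succ) (fun t : Fin m => I (i.succAbove (j.succAbove t))))
      else 0) = ∑ i : Fin (m + 2), (-1 : k) ^ (i : ℕ) * c I * G (I i) (fun t => I (i.succAbove t)) := by
    intro I
    refine Finset.sum_congr rfl fun i _ => ?_
    rw [hG, Finset.mul_sum]
    refine Finset.sum_congr rfl fun j _ => ?_
    by_cases hij : (i : ℕ) ≤ (j : ℕ)
    · have h1 : i.succAbove j = j.succ := Fin.succAbove_of_le_castSucc i j (by
        rw [Fin.le_def]; simpa using hij)
      have h2 : I i < I (i.succAbove j) := by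
        rw [h1]
        exact I.strictMono (by rw [Fin.lt_def, Fin.val_succ]; omega)
      rw [if_pos hij, if_pos h2, h1]
      ring
    · have h1 : i.succAbove j = j.castSucc := Fin.succAbove_of_castSucc_lt i j (by
        rw [Fin.lt_def]; simpa using hij)
      have h2 : ¬ I i < I (i.succAbove j) := by
        rw [h1, not_lt]
        exact I.monotone (by rw [Fin.le_def, Fin.val_castSucc]; omega)
      rw [if_neg hij, if_neg h2, mul_zero]
  rw [Finset.sum_congr rfl fun I _ => e1 I, step c h0 hs G, Finset.sum_comm]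
  have e2 : ∀ p : Fin N, ∑ K : Fin (m + 1) ↪o Fin N, c (Fin.cons p K : Fin (m + 2) → Fin N) *
      G p K = - ∑ J : Fin m ↪o Fin N, ∑ q : Fin N,
            c (Fin.cons p (Fin.cons q J : Fin (m + 1) → Fin N)) * (if p < q then h p q J else 0) := by
    intro p
    have h3 := step (fun K : Fin (m + 1) → Fin N => c (Fin.cons p K : Fin (m + 2) → Fin N)) ?_ ?_
      (fun q J => if p < q then h p q J else 0)
    · rw [← h3, ← Finset.sum_neg_distrib]
      refine Finset.sum_congr rfl fun K _ => ?_
      rw [hG, Finset.mul_sum, ← Finset.sum_neg_distrib]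
      refine Finset.sum_congr rfl fun j _ => ?_
      split_ifs
      · ring
      · simp
    · intro v hv
      apply h0
      intro hinj
      rw [Fin.cons_injective_iff] at hinj
      exact hv hinj.2
    · intro v σ
      have h4 : (Fin.cons p (v ∘ σ) : Fin (m + 2) → Fin N) =
          (Fin.cons p v : Fin (m + 2) → Fin N) ∘ (Equiv.Perm.decomposeFin.symm (0, σ)) := by
        funext t
        refine Fin.cases ?_ (fun t => ?_) t
        · simp
        · simp
      rw [h4, hs]
      simp
  rw [Finset.sum_congr rfl fun p _ => e2 p, Finset.sum_neg_distrib, Finset.sum_comm]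
  congr 1
  refine Finset.sum_congr rfl fun J _ => ?_
  refine Finset.sum_congr rfl fun p _ => ?_
  refine Finset.sum_congr rfl fun q _ => ?_
  split_ifs
  · rfl
  · rw [mul_zero]

end Pool.Agent.W828.BK
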